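import Pool.Agent.L0h85.KQ.Alg

set_option autoImplicit false

/-! The Gram law -/

namespace Pool.Agent.L0h85.KQ

open MeasureTheory Pool.Agent.L0h31.KQ
open scoped ENNReal

theorem subst_lin {E : Type} [NormedAddCommGroup E] [NormedSpace ℝ E] [FiniteDimensional ℝ E]
    [MeasurableSpace E] [BorelSpace E] (μ : Measure E) [μ.IsAddHaarMeasure] (f : E →ₗ[ℝ] E)
    (hf : LinearMap.det f ≠ 0) (Φ : E → ℝ≥0∞) (hΦ : Measurable Φ) :
    ∫⁻ x, Φ (f x) ∂μ = ENNReal.ofReal |(LinearMap.det f)⁻¹| * ∫⁻ x, Φ x ∂μ := by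
  have hm : Measurable f := (LinearMap.continuous_of_finiteDimensional f).measurable
  rw [← lintegral_map hΦ hm, Measure.map_linearMap_addHaar_eq_smul_addHaar _ hf,
    lintegral_smul_measure, smul_eq_mul]

variable {B : Type} [CStarAlgebra B]

theorem continuous_gram : Continuous (gram : B → Hs B) := by
  refine Continuous.subtype_mk ?_ _
  exact continuous_id.mul continuous_star

theorem continuous_cg : Continuous fun z : B × Hs B => cg z.1 z.2 := by
  refine Continuous.subtype_mk ?_ _
  exact (continuous_fst.mul (continuous_subtype_val.comp continuous_snd)).mul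
    (continuous_star.comp continuous_fst)

theorem cg_coe (p : B) (w : Hs B) : ((cg p w : Hs B) : B) = p * w * star p := rfl

theorem gram_coe (p : B) : ((gram p : Hs B) : B) = p * star p := rfl

theorem cg_mul (p q : B) (w : Hs B) : cg (p * q) w = cg p (cg q w) := by
  apply Subtype.ext
  rw [cg_coe, cg_coe, cg_coe, star_mul]
  simp only [mul_assoc]

theorem cg_one (w : Hs B) : cg (1 : B) w = w := by
  apply Subtype.ext
  rw [cg_coe, star_one, one_mul, mul_one]

/-- the unit as a selfadjoint element -/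
noncomputable def one' : Hs B := ⟨1, by
  change star (1 : B) = 1
  exact star_one B⟩

theorem cg_pd {p : B} (hp : IsUnit p) {w : Hs B} (hw : w ∈ PD B) : cg p w ∈ PD B := by
  obtain ⟨q, hq, h⟩ := hw
  refine ⟨p * q, hp.mul hq, ?_⟩
  rw [cg_coe, h, star_mul]
  simp only [mul_assoc]

theorem inv_mul' {p : B} (hp : IsUnit p) : Ring.inverse p * p = 1 := Ring.inverse_mul_cancel p hp

theorem mul_inv' {p : B} (hp : IsUnit p) : p * Ring.inverse p = 1 := Ring.mul_inverse_cancel p hp

theorem cg_inv {p : B} (hp : IsUnit p) (w : Hs B) : cg (Ring.inverse p) (cg p w) = w := by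
  rw [← cg_mul, inv_mul' hp, cg_one]

theorem cg_pd_iff {p : B} (hp : IsUnit p) (w : Hs B) : cg p w ∈ PD B ↔ w ∈ PD B := by
  refine ⟨fun h => ?_, cg_pd hp⟩
  have hi : IsUnit (Ring.inverse p) :=
    ⟨⟨Ring.inverse p, p, inv_mul' hp, mul_inv' hp⟩, rfl⟩
  have := cg_pd hi h
  rwa [cg_inv hp] at this

theorem ball_pd : Metric.ball (one' : Hs B) 1 ⊆ PD B := by
  let _ := CStarAlgebra.spectralOrder B
  let _ := CStarAlgebra.spectralOrderedRing B
  intro w hw
  have h1 : ‖(w : B) - 1‖ < 1 := by
    rw [Metric.mem_ball, dist_eq_norm] at hw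
    exact hw
  have h2 : ‖1 - (w : B)‖ < 1 := by rwa [norm_sub_rev]
  have h3 : IsUnit (w : B) := by
    have := (Units.oneSub (1 - (w : B)) h2).isUnit
    simpa using this
  have hsa : IsSelfAdjoint (1 - (w : B)) := by
    show star (1 - (w : B)) = 1 - w
    rw [star_sub, star_one, star_hs]
  have h4 : (0 : B) ≤ w := by
    have h5 := hsa.le_algebraMap_norm_self
    have h6 : algebraMap ℝ B ‖1 - (w : B)‖ ≤ algebraMap ℝ B 1 := by
      exact algebraMap_mono B h2.le
    rw [map_one] at h6
    have h7 := h5.trans h6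
    have h8 := sub_nonneg.2 h7
    simpa using h8
  refine ⟨CFC.sqrt (w : B), (CFC.isUnit_sqrt_iff _ h4).2 h3, ?_⟩
  have h9 : star (CFC.sqrt (w : B)) = CFC.sqrt (w : B) :=
    (CFC.sqrt_nonneg (w : B)).isSelfAdjoint
  rw [h9]
  exact (CFC.sqrt_mul_sqrt_self _ h4).symm

variable [MeasurableSpace B] [BorelSpace B]

theorem measurable_inv' : Measurable (Ring.inverse : B → B) := by
  classical
  have h : (Ring.inverse : B → B) = Set.piecewise {x : B | IsUnit x} (Ring.inverse : B → B)
      (fun _ => 0) := by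
    funext x
    by_cases hx : IsUnit x
    · rw [Set.piecewise_eq_of_mem _ _ _ (show x ∈ {x : B | IsUnit x} from hx)]
    · rw [Set.piecewise_eq_of_notMem _ _ _ (show x ∉ {x : B | IsUnit x} from hx),
        Ring.inverse_non_unit x hx]
  rw [h]
  refine ContinuousOn.measurable_piecewise ?_ continuousOn_const
    (Units.isOpen (R := B)).measurableSet
  rintro x ⟨u, rfl⟩
  exact (NormedRing.inverse_continuousAt u).continuousWithinAt

variable [FiniteDimensional ℂ B]

theorem gram_key (μ : Measure B) [μ.IsAddHaarMeasure] (ν : Measure (Hs B)) [ν.IsAddHaarMeasure] :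
    ∃ c : ℝ≥0∞, ∀ Φ : Hs B → ℝ≥0∞, Measurable Φ →
    (∫⁻ x, (PD B).indicator Φ (gram x) ∂μ) * ν (Metric.ball one' 1) = c * ∫⁻ w in PD B, Φ w ∂ν := by
  have : FiniteDimensional ℝ B := FiniteDimensional.complexToReal B
  have : ProperSpace B := FiniteDimensional.proper ℝ B
  have : SecondCountableTopology B := inferInstance
  have hPD : MeasurableSet (PD B) := t_PD B
  set K : Set (Hs B) := Metric.ball one' 1 with hK
  have hKm : MeasurableSet K := Metric.isOpen_ball.measurableSet
  let ψ : Hs B → ℝ≥0∞ := K.indicator fun w => ENNReal.ofReal (Real.sqrt |nm (w : B)|)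
  have hψ : Measurable ψ := by
    refine Measurable.indicator ?_ hKm
    refine ENNReal.measurable_ofReal.comp ?_
    exact (Real.continuous_sqrt.comp (continuous_abs.comp
      (continuous_nm.comp continuous_subtype_val))).measurable
  refine ⟨∫⁻ x, ENNReal.ofReal |(nm x)⁻¹| * ψ (cg (Ring.inverse x) one') ∂μ, fun Φ hΦ => ?_⟩
  set Ψ : Hs B → ℝ≥0∞ := (PD B).indicator Φ with hΨd
  have hΨ : Measurable Ψ := hΦ.indicator hPD
  have hcg : Measurable fun z : B × Hs B => cg z.1 z.2 := continuous_cg.measurable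
  -- the double integral
  have hJ1 : ∫⁻ w, (∫⁻ x, ψ w * Ψ (cg x w) ∂μ) ∂ν =
      (∫⁻ x, (PD B).indicator Φ (gram x) ∂μ) * ν K := by
    have h1 : ∀ w, (∫⁻ x, ψ w * Ψ (cg x w) ∂μ) =
        K.indicator (fun _ => ∫⁻ x, (PD B).indicator Φ (gram x) ∂μ) w := by
      intro w
      by_cases hw : w ∈ K
      · rw [Set.indicator_of_mem hw]
        obtain ⟨p, hp, hps, hwp⟩ := pd_sqrt (ball_pd hw)
        have e1 : ∀ x, Ψ (cg x w) = (fun y => Ψ (gram y)) (LinearMap.mulRight ℝ (star p) x) := by
          intro x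
          show Ψ (cg x w) = Ψ (gram (x * star p))
          congr 1
          apply Subtype.ext
          rw [cg_coe, gram_coe, hwp, star_mul, star_star, hps]
          simp only [mul_assoc]
        have hd : LinearMap.det (LinearMap.mulRight ℝ (star p)) ≠ 0 := by
          rw [det_right]
          exact nm_ne hp
        have e2 : ∫⁻ x, Ψ (cg x w) ∂μ =
            ENNReal.ofReal |(nm p)⁻¹| * ∫⁻ x, Ψ (gram x) ∂μ := by
          simp_rw [e1]
          refine (subst_lin μ _ hd (fun y => Ψ (gram y))
            (hΨ.comp continuous_gram.measurable)).trans ?_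
          rw [det_right]
        rw [lintegral_const_mul' _ _ (by
          show K.indicator _ w ≠ ⊤
          rw [Set.indicator_of_mem hw]
          exact ENNReal.ofReal_ne_top), e2, ← mul_assoc]
        have e3 : ψ w * ENNReal.ofReal |(nm p)⁻¹| = 1 := by
          show K.indicator _ w * _ = _
          rw [Set.indicator_of_mem hw, ← ENNReal.ofReal_mul (Real.sqrt_nonneg _), hwp, nm_mul,
            abs_mul, Real.sqrt_mul_self (abs_nonneg _), abs_inv,
            mul_inv_cancel₀ (abs_ne_zero.2 (nm_ne hp)), ENNReal.ofReal_one]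
        rw [e3, one_mul]
      · rw [Set.indicator_of_notMem hw]
        have : ψ w = 0 := Set.indicator_of_notMem hw _
        rw [this]
        simp
    simp_rw [h1]
    rw [lintegral_indicator hKm, lintegral_const, Measure.restrict_apply_univ]
  have hm1 : Measurable fun z : Hs B × B => ψ z.1 * Ψ (cg z.2 z.1) :=
    (hψ.comp measurable_fst).mul (hΨ.comp (hcg.comp measurable_swap))
  rw [← hJ1, lintegral_lintegral_swap hm1.aemeasurable]
  have hunit := t_UNIT B μ
  have h2 : ∀ᵐ x ∂μ, (∫⁻ w, ψ w * Ψ (cg x w) ∂ν) =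
      ∫⁻ w, Ψ w * (ENNReal.ofReal |(nm x)⁻¹| * ψ (cg (Ring.inverse x) w)) ∂ν := by
    filter_upwards [hunit] with x hx
    have e1 : ∀ w, ψ w * Ψ (cg x w) =
        (fun w' => ψ (cg (Ring.inverse x) w') * Ψ w') (cg x w) := by
      intro w
      simp only
      rw [cg_inv hx]
    simp_rw [e1]
    have hd : LinearMap.det (cg x) ≠ 0 := by
      rw [← abs_ne_zero, det_cg, abs_ne_zero]
      exact nm_ne hx
    have hms : Measurable fun w' : Hs B => ψ (cg (Ring.inverse x) w') * Ψ w' := by
      refine Measurable.mul (hψ.comp ?_) hΨ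
      exact (LinearMap.continuous_of_finiteDimensional (cg (Ring.inverse x))).measurable
    rw [subst_lin ν _ hd _ hms, abs_inv, det_cg, ← abs_inv,
      ← lintegral_const_mul' _ _ ENNReal.ofReal_ne_top]
    refine lintegral_congr fun w => ?_
    ring
  rw [lintegral_congr_ae h2]
  have hm2 : Measurable fun z : B × Hs B =>
      Ψ z.2 * (ENNReal.ofReal |(nm z.1)⁻¹| * ψ (cg (Ring.inverse z.1) z.2)) := by
    have hz : Measurable fun z : B × Hs B => (Ring.inverse z.1, z.2) :=
      (measurable_inv'.comp measurable_fst).prodMk measurable_snd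
    refine (hΨ.comp measurable_snd).mul (Measurable.mul ?_ (hψ.comp (hcg.comp hz)))
    refine ENNReal.measurable_ofReal.comp ?_
    exact (continuous_abs.measurable.comp
        ((continuous_nm.measurable.comp measurable_fst).inv))
  rw [lintegral_lintegral_swap hm2.aemeasurable]
  have h3 : ∀ w, (∫⁻ x, Ψ w * (ENNReal.ofReal |(nm x)⁻¹| * ψ (cg (Ring.inverse x) w)) ∂μ) =
      (∫⁻ x, ENNReal.ofReal |(nm x)⁻¹| * ψ (cg (Ring.inverse x) one') ∂μ) *
        (PD B).indicator Φ w := by
    intro w
    have hma : Measurable fun x : B =>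
        ENNReal.ofReal |(nm x)⁻¹| * ψ (cg (Ring.inverse x) w) := by
      refine Measurable.mul ?_ (hψ.comp (hcg.comp (measurable_inv'.prodMk measurable_const)))
      refine ENNReal.measurable_ofReal.comp ?_
      exact (continuous_abs.measurable.comp (continuous_nm.measurable.inv))
    rw [lintegral_const_mul _ hma, mul_comm]
    by_cases hw : w ∈ PD B
    · congr 1
      obtain ⟨p, hp, hps, hwp⟩ := pd_sqrt hw
      have hd : LinearMap.det (LinearMap.mulLeft ℝ p) ≠ 0 := nm_ne hp
      have e1 := subst_lin μ (LinearMap.mulLeft ℝ p) hd _ hma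
      have e2 : ∫⁻ x, ENNReal.ofReal |(nm x)⁻¹| * ψ (cg (Ring.inverse x) w) ∂μ =
          ENNReal.ofReal |nm p| * ∫⁻ x, (fun x => ENNReal.ofReal |(nm x)⁻¹| *
            ψ (cg (Ring.inverse x) w)) (LinearMap.mulLeft ℝ p x) ∂μ := by
        rw [e1, ← mul_assoc, ← ENNReal.ofReal_mul (abs_nonneg _)]
        have : |nm p| * |(LinearMap.det (LinearMap.mulLeft ℝ p))⁻¹| = 1 := by
          show |nm p| * |(nm p)⁻¹| = 1
          rw [abs_inv, mul_inv_cancel₀ (abs_ne_zero.2 (nm_ne hp))]
        rw [this, ENNReal.ofReal_one, one_mul]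
      rw [e2, ← lintegral_const_mul' _ _ ENNReal.ofReal_ne_top]
      refine lintegral_congr_ae ?_
      filter_upwards [hunit] with x hx
      show ENNReal.ofReal |nm p| * (ENNReal.ofReal |(nm (p * x))⁻¹| *
        ψ (cg (Ring.inverse (p * x)) w)) = _
      have e3 : Ring.inverse (p * x) = Ring.inverse x * Ring.inverse p := by
        have h4 : IsUnit (p * x) := hp.mul hx
        have h5 : (Ring.inverse x * Ring.inverse p) * (p * x) = 1 := by
          rw [mul_assoc, ← mul_assoc (Ring.inverse p), inv_mul' hp, one_mul, inv_mul' hx]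
        calc Ring.inverse (p * x) = ((Ring.inverse x * Ring.inverse p) * (p * x)) *
              Ring.inverse (p * x) := by rw [h5, one_mul]
          _ = Ring.inverse x * Ring.inverse p := by rw [mul_assoc, mul_inv' h4, mul_one]
      have e4 : cg (Ring.inverse p) w = one' := by
        apply Subtype.ext
        rw [cg_coe, hwp]
        show Ring.inverse p * (p * p) * star (Ring.inverse p) = 1
        have h6 : star (Ring.inverse p) = Ring.inverse p := by
          have h7 : star (Ring.inverse p) * p = 1 := by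
            have h8 := congrArg star (mul_inv' hp)
            rw [star_mul, star_one, hps] at h8
            exact h8
          calc star (Ring.inverse p) = star (Ring.inverse p) * (p * Ring.inverse p) := by
                rw [mul_inv' hp, mul_one]
            _ = Ring.inverse p := by rw [← mul_assoc, h7, one_mul]
        rw [h6, ← mul_assoc, inv_mul' hp, one_mul, mul_inv' hp]
      rw [e3, cg_mul, e4, nm_mul, mul_inv, abs_mul, ENNReal.ofReal_mul (abs_nonneg _),
        ← mul_assoc, ← mul_assoc, ← ENNReal.ofReal_mul (abs_nonneg _)]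
      have : |nm p| * |(nm p)⁻¹| = 1 := by
        rw [abs_inv, mul_inv_cancel₀ (abs_ne_zero.2 (nm_ne hp))]
      rw [this, ENNReal.ofReal_one, one_mul]
    · have h4 : Ψ w = 0 := Set.indicator_of_notMem hw _
      rw [Set.indicator_of_notMem hw, h4, mul_zero, mul_zero]
  simp_rw [h3]
  rw [lintegral_const_mul _ (hΦ.indicator hPD), lintegral_indicator hPD]

theorem t_GRAM : S_GRAM := by
  intro B _ _ _ _ μ _ ν _
  have : FiniteDimensional ℝ B := FiniteDimensional.complexToReal B
  have : ProperSpace B := FiniteDimensional.proper ℝ B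
  obtain ⟨c, hc⟩ := gram_key μ ν
  set K : Set (Hs B) := Metric.ball one' 1 with hK
  have hKm : MeasurableSet K := Metric.isOpen_ball.measurableSet
  have hK0 : ν K ≠ 0 := (Metric.measure_ball_pos ν _ one_pos).ne'
  have hK1 : ν K ≠ ⊤ := measure_ball_lt_top.ne
  have hform : ∀ Φ : Hs B → ℝ≥0∞, Measurable Φ →
      ∫⁻ x, (PD B).indicator Φ (gram x) ∂μ = c / ν K * ∫⁻ w in PD B, Φ w ∂ν := by
    intro Φ hΦ
    calc ∫⁻ x, (PD B).indicator Φ (gram x) ∂μ =
          (∫⁻ x, (PD B).indicator Φ (gram x) ∂μ) * ν K / ν K :=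
          (ENNReal.mul_div_cancel_right hK0 hK1).symm
      _ = c * (∫⁻ w in PD B, Φ w ∂ν) / ν K := by rw [hc Φ hΦ]
      _ = c / ν K * ∫⁻ w in PD B, Φ w ∂ν := by
          rw [div_eq_mul_inv, div_eq_mul_inv]
          ring
  have h1 := hform (K.indicator fun _ => 1) (measurable_const.indicator hKm)
  have h2 : ∀ x : B, (PD B).indicator (K.indicator fun _ => (1 : ℝ≥0∞)) (gram x) =
      (gram ⁻¹' K).indicator (fun _ => (1 : ℝ≥0∞)) x := by
    intro x
    by_cases hx : gram x ∈ K
    · rw [Set.indicator_of_mem (ball_pd hx), Set.indicator_of_mem hx,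
        Set.indicator_of_mem (show x ∈ gram ⁻¹' K from hx)]
    · rw [Set.indicator_of_notMem (show x ∉ gram ⁻¹' K from hx)]
      by_cases hx2 : gram x ∈ PD B
      · rw [Set.indicator_of_mem hx2, Set.indicator_of_notMem hx]
      · rw [Set.indicator_of_notMem hx2]
  have hop : IsOpen (gram ⁻¹' K : Set B) := Metric.isOpen_ball.preimage continuous_gram
  simp_rw [h2] at h1
  rw [lintegral_indicator hop.measurableSet, lintegral_const, Measure.restrict_apply_univ,
    one_mul, lintegral_indicator hKm, lintegral_const, Measure.restrict_apply_univ, one_mul,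
    Measure.restrict_apply hKm, Set.inter_eq_left.2 ball_pd] at h1
  have h3 : μ (gram ⁻¹' K) ≠ 0 := by
    refine (hop.measure_pos μ ⟨1, ?_⟩).ne'
    show gram (1 : B) ∈ K
    have : gram (1 : B) = one' := by
      apply Subtype.ext
      rw [gram_coe, star_one, mul_one]
      rfl
    rw [this]
    exact Metric.mem_ball_self one_pos
  have h4 : μ (gram ⁻¹' K) ≠ ⊤ := by
    have : gram ⁻¹' K ⊆ Metric.ball (0 : B) (2 + ‖(1 : B)‖) := by
      intro x hx
      have hx' : gram x ∈ Metric.ball (one' : Hs B) 1 := hx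
      rw [Metric.mem_ball, dist_eq_norm] at hx'
      have h5 : ‖x * star x - 1‖ < 1 := hx'
      rw [mem_ball_zero_iff]
      have h6 : ‖x‖ * ‖x‖ = ‖x * star x‖ := (CStarRing.norm_self_mul_star).symm
      have h7 : ‖x * star x‖ ≤ ‖x * star x - 1‖ + ‖(1 : B)‖ := by
        have := norm_add_le (x * star x - 1) (1 : B)
        simpa using this
      by_contra hcon
      push Not at hcon
      nlinarith [norm_nonneg (1 : B)]
    exact (lt_of_le_of_lt (measure_mono this) measure_ball_lt_top).ne
  refine ⟨c / ν K, ?_, ?_, hform⟩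
  · intro h
    rw [h, zero_mul] at h1
    exact h3 h1
  · intro h
    rw [h, ENNReal.top_mul hK0] at h1
    exact h4 h1

end Pool.Agent.L0h85.KQ
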