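import Pool.Agent.L0h85.KQ.Pd

set_option autoImplicit false

/-! Linear algebra for the Gram law -/

namespace Pool.Agent.L0h85.KQ

open MeasureTheory Pool.Agent.L0h31.KQ
open scoped ENNReal

variable {B : Type} [CStarAlgebra B]

/-- the determinant of the left multiplication -/
noncomputable def nm (p : B) : ℝ := LinearMap.det (LinearMap.mulLeft ℝ p)

theorem nm_mul (p q : B) : nm (p * q) = nm p * nm q := by
  unfold nm
  rw [LinearMap.mulLeft_mul, ← LinearMap.det_comp]

theorem nm_one : nm (1 : B) = 1 := by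
  unfold nm
  rw [LinearMap.mulLeft_one, LinearMap.det_id]

theorem nm_ne {p : B} (hp : IsUnit p) : nm p ≠ 0 := by
  obtain ⟨u, rfl⟩ := hp
  intro h
  have h1 := nm_mul (u : B) (↑u⁻¹ : B)
  rw [Units.mul_inv, nm_one, h, zero_mul] at h1
  exact one_ne_zero h1

theorem continuous_nm [FiniteDimensional ℝ B] : Continuous (nm : B → ℝ) := by
  have h : (nm : B → ℝ) = fun p => (ContinuousLinearMap.mul ℝ B p).det := by
    funext p
    rfl
  rw [h]
  exact ContinuousLinearMap.continuous_det.comp (ContinuousLinearMap.mul ℝ B).continuous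

/-- `star` as a real linear map -/
noncomputable def st : B ≃ₗ[ℝ] B where
  toFun x := star x
  invFun x := star x
  left_inv x := star_star x
  right_inv x := star_star x
  map_add' x y := star_add x y
  map_smul' c x := by simp

theorem det_right (p : B) : LinearMap.det (LinearMap.mulRight ℝ (star p)) = nm p := by
  have h : LinearMap.mulRight ℝ (star p) =
      ((st : B ≃ₗ[ℝ] B) : B →ₗ[ℝ] B) ∘ₗ LinearMap.mulLeft ℝ p ∘ₗ
        ((st : B ≃ₗ[ℝ] B).symm : B →ₗ[ℝ] B) := by
    ext x
    show x * star p = star (p * star x)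
    rw [star_mul, star_star]
  rw [h, LinearMap.det_conj]
  rfl

/-- the decomposition in real and imaginary part -/
noncomputable def dec : (Hs B × Hs B) →ₗ[ℝ] B :=
  LinearMap.coprod (Hs B).subtype
    ((LinearMap.lsmul ℂ B Complex.I).restrictScalars ℝ ∘ₗ (Hs B).subtype)

theorem dec_apply (u v : Hs B) : dec (u, v) = (u : B) + Complex.I • (v : B) := rfl

theorem star_hs (u : Hs B) : star (u : B) = u := u.2

theorem dec_inj : Function.Injective (dec : (Hs B × Hs B) →ₗ[ℝ] B) := by
  rw [← LinearMap.ker_eq_bot, LinearMap.ker_eq_bot']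
  rintro ⟨u, v⟩ h
  rw [dec_apply] at h
  have h2 := congrArg star h
  rw [star_add, star_smul, star_hs, star_hs, star_zero] at h2
  have h3 : star Complex.I = -Complex.I := Complex.conj_I
  rw [h3, neg_smul] at h2
  have h4 : (u : B) + (u : B) = 0 := by
    have := congrArg₂ (· + ·) h h2
    simp only [add_zero] at this
    rw [← this]
    abel
  have hu : (u : B) = 0 := by
    have h5 : (2 : ℂ) • (u : B) = 0 := by rw [two_smul, h4]
    exact (smul_eq_zero.1 h5).resolve_left two_ne_zero
  have hv : (v : B) = 0 := by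
    rw [hu, zero_add] at h
    exact (smul_eq_zero.1 h).resolve_left Complex.I_ne_zero
  exact Prod.ext (Subtype.ext hu) (Subtype.ext hv)

theorem dec_surj : Function.Surjective (dec : (Hs B × Hs B) →ₗ[ℝ] B) := by
  intro x
  have h1 : star ((1 / 2 : ℂ) • (x + star x)) = (1 / 2 : ℂ) • (x + star x) := by
    rw [star_smul, star_add, star_star, add_comm (star x)]
    congr 1
    simp
  have h2 : star ((-Complex.I / 2 : ℂ) • (x - star x)) = (-Complex.I / 2 : ℂ) • (x - star x) := by
    rw [star_smul, star_sub, star_star]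
    have h3 : star (-Complex.I / 2 : ℂ) = -(-Complex.I / 2) := by
      simp
      ring
    rw [h3, neg_smul, ← smul_neg, neg_sub]
  refine ⟨(⟨_, h1⟩, ⟨_, h2⟩), ?_⟩
  rw [dec_apply]
  simp only
  rw [smul_smul]
  have h4 : Complex.I * (-Complex.I / 2) = 1 / 2 := by
    rw [mul_div_assoc', mul_neg, Complex.I_mul_I, neg_neg]
  rw [h4, ← smul_add]
  have h5 : x + star x + (x - star x) = (2 : ℂ) • x := by
    rw [two_smul]
    abel
  rw [h5, smul_smul]
  norm_num

theorem det_cg [FiniteDimensional ℝ B] (p : B) : |LinearMap.det (cg p)| = |nm p| := by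
  let E : (Hs B × Hs B) ≃ₗ[ℝ] B := LinearEquiv.ofBijective dec ⟨dec_inj, dec_surj⟩
  have hE : ∀ z, E z = dec z := fun z => rfl
  have h : LinearMap.mulLeft ℝ p ∘ₗ LinearMap.mulRight ℝ (star p) =
      (E : (Hs B × Hs B) →ₗ[ℝ] B) ∘ₗ (LinearMap.prodMap (cg p) (cg p)) ∘ₗ
        (E.symm : B →ₗ[ℝ] (Hs B × Hs B)) := by
    ext x
    obtain ⟨⟨u, v⟩, rfl⟩ := E.surjective x
    show p * (E (u, v) * star p) = E (LinearMap.prodMap (cg p) (cg p) (E.symm (E (u, v))))
    rw [LinearEquiv.symm_apply_apply, hE, hE, dec_apply]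
    show p * (((u : B) + Complex.I • (v : B)) * star p) =
      p * (u : B) * star p + Complex.I • (p * (v : B) * star p)
    rw [add_mul, mul_add, smul_mul_assoc, mul_smul_comm, mul_assoc, mul_assoc]
  have h2 := congrArg LinearMap.det h
  rw [LinearMap.det_comp, LinearMap.det_conj, LinearMap.det_prodMap, det_right] at h2
  have h3 : nm p * nm p = LinearMap.det (cg p) * LinearMap.det (cg p) := h2
  exact (abs_eq_abs.2 (mul_self_eq_mul_self_iff.1 h3)).symm

end Pool.Agent.L0h85.KQ
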