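import Pool.Agent.L0h31.KQ.Defs

set_option autoImplicit false

/-! S_PD and S_UNIT -/

namespace Pool.Agent.L0h85.KQ

open MeasureTheory Pool.Agent.L0h31.KQ
open scoped ENNReal

variable {B : Type} [CStarAlgebra B]

theorem pd_sqrt {w : Hs B} (hw : w ∈ PD B) :
    ∃ p : B, IsUnit p ∧ star p = p ∧ (w : B) = p * p := by
  let _ := CStarAlgebra.spectralOrder B
  let _ := CStarAlgebra.spectralOrderedRing B
  obtain ⟨q, hq, hw⟩ := hw
  have h0 : (0 : B) ≤ w := by
    rw [hw]
    exact mul_star_self_nonneg q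
  have h1 : IsUnit (w : B) := by
    rw [hw]
    exact hq.mul hq.star
  refine ⟨CFC.sqrt (w : B), (CFC.isUnit_sqrt_iff _ h0).2 h1, ?_, (CFC.sqrt_mul_sqrt_self _ h0).symm⟩
  exact (CFC.sqrt_nonneg (w : B)).isSelfAdjoint

theorem pd_of_sq {w : Hs B} {p : B} (hp : IsUnit p) (hw : (w : B) = p * star p) : w ∈ PD B :=
  ⟨p, hp, hw⟩

theorem t_PD : S_PD := by
  intro B _ _ _
  let _ := CStarAlgebra.spectralOrder B
  let _ := CStarAlgebra.spectralOrderedRing B
  have h : PD B = {w : Hs B | IsUnit (w : B)} ∩ {w : Hs B | (0 : B) ≤ w} := by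
    ext w
    constructor
    · rintro ⟨q, hq, hw⟩
      refine ⟨?_, ?_⟩
      · show IsUnit (w : B)
        rw [hw]
        exact hq.mul hq.star
      · show (0 : B) ≤ w
        rw [hw]
        exact mul_star_self_nonneg q
    · rintro ⟨h1, h0⟩
      have h1' : IsUnit (w : B) := h1
      have h0' : (0 : B) ≤ w := h0
      refine ⟨CFC.sqrt (w : B), (CFC.isUnit_sqrt_iff _ h0').2 h1', ?_⟩
      have h2 : star (CFC.sqrt (w : B)) = CFC.sqrt (w : B) :=
        (CFC.sqrt_nonneg (w : B)).isSelfAdjoint
      rw [h2]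
      exact (CFC.sqrt_mul_sqrt_self _ h0').symm
  rw [h]
  refine MeasurableSet.inter ?_ ?_
  · exact (Units.isOpen (R := B)).measurableSet.preimage measurable_subtype_coe
  · exact (CStarAlgebra.isClosed_nonneg (A := B)).measurableSet.preimage measurable_subtype_coe

theorem finite_spec (x : B) [FiniteDimensional ℂ B] : {t : ℝ | ¬ IsUnit (x + algebraMap ℝ B t)}.Finite := by
  have hint : IsIntegral ℂ x := IsIntegral.of_finite ℂ x
  have h1 : (spectrum ℂ x).Finite := by
    rcases subsingleton_or_nontrivial B with hB | hB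
    · rw [spectrum.of_subsingleton]
      exact Set.finite_empty
    · have h2 := spectrum.subset_polynomial_aeval (𝕜 := ℂ) x (minpoly ℂ x)
      rw [minpoly.aeval, spectrum.zero_eq] at h2
      refine ((minpoly ℂ x).rootSet_finite ℂ).subset fun t ht => ?_
      rw [Polynomial.mem_rootSet]
      refine ⟨minpoly.ne_zero hint, ?_⟩
      have := h2 ⟨t, ht, rfl⟩
      simpa [Polynomial.aeval_def, Polynomial.eval₂_eq_eval_map] using this
  refine Set.Finite.of_finite_image (f := fun t : ℝ => -(t : ℂ)) (h1.subset ?_) ?_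
  · rintro _ ⟨t, ht, rfl⟩
    rw [spectrum.mem_iff]
    intro h
    apply ht
    have h3 : x + algebraMap ℝ B t = -(algebraMap ℂ B (-(t : ℂ)) - x) := by
      rw [map_neg]
      have : algebraMap ℝ B t = algebraMap ℂ B (t : ℂ) := by
        rw [IsScalarTower.algebraMap_apply ℝ ℂ B]
        rfl
      rw [this]
      abel
    rw [h3]
    exact h.neg
  · intro s _ t _ h
    simpa using h

theorem t_UNIT : S_UNIT := by
  intro B _ _ _ _ μ _
  have : FiniteDimensional ℝ B := FiniteDimensional.complexToReal B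
  have : ProperSpace B := FiniteDimensional.proper ℝ B
  have hN : MeasurableSet {x : B | ¬ IsUnit x} := by
    have := (Units.isOpen (R := B)).measurableSet.compl
    exact this
  rw [ae_iff]
  set N : Set B := {x : B | ¬ IsUnit x} with hNd
  have hcont : Continuous fun z : B × ℝ => z.1 + algebraMap ℝ B z.2 :=
    continuous_fst.add ((continuous_algebraMap ℝ B).comp continuous_snd)
  have hm : Measurable fun z : B × ℝ => N.indicator (fun _ => (1 : ℝ≥0∞)) (z.1 + algebraMap ℝ B z.2) :=
    (measurable_const.indicator hN).comp hcont.measurable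
  have h1 : ∫⁻ x, (∫⁻ t in Set.Icc (0 : ℝ) 1,
      N.indicator (fun _ => (1 : ℝ≥0∞)) (x + algebraMap ℝ B t)) ∂μ = 0 := by
    rw [lintegral_eq_zero_iff' (by
      exact (Measurable.lintegral_prod_right' hm).aemeasurable)]
    filter_upwards with x
    have h2 : (fun t : ℝ => N.indicator (fun _ => (1 : ℝ≥0∞)) (x + algebraMap ℝ B t)) =
        {t : ℝ | ¬ IsUnit (x + algebraMap ℝ B t)}.indicator (fun _ => (1 : ℝ≥0∞)) := rfl
    rw [h2]
    have h3 := (finite_spec x)
    show ∫⁻ t in Set.Icc (0 : ℝ) 1, _ = 0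
    rw [lintegral_indicator h3.measurableSet, lintegral_const, one_mul,
      Measure.restrict_apply_univ]
    exact Measure.mono_null (Set.Subset.refl _) (by
      have := (h3.measure_zero (volume.restrict (Set.Icc (0:ℝ) 1)))
      exact this)
  rw [lintegral_lintegral_swap hm.aemeasurable] at h1
  have h4 : ∀ t : ℝ, ∫⁻ x, N.indicator (fun _ => (1 : ℝ≥0∞)) (x + algebraMap ℝ B t) ∂μ = μ N := by
    intro t
    rw [lintegral_add_right_eq_self (μ := μ) (fun x => N.indicator (fun _ => (1 : ℝ≥0∞)) x)]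
    rw [lintegral_indicator hN, lintegral_const, one_mul, Measure.restrict_apply_univ]
  simp_rw [h4] at h1
  simpa using h1

end Pool.Agent.L0h85.KQ
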